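import Pool.Agent.X31.SH4

/-!
# MP_e24151_co: the toughest density for two 3-ships is 1/2

A `k`-ship is a strictly increasing `a : Fin k → ℤ`, a shooting pattern is a sequence
`X : ℤ → Fin 2`. We prove `M^2_3 = 1/2`: any two 3-ships are hit by one pattern of density exactly
`1/2`, and the ships `[0, 1, 3]` and `[0, 3, 4]` need density `1/2`.
-/

set_option autoImplicit false

open Finset Filter Topology

namespace Pool.Agent.Results.MP_e24151_co.ToughestDensityHalf

/-- the pattern `X` hits the ship `a`: every translate of `a` contains a shot -/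
def Hits {k : ℕ} (X : ℤ → Fin 2) (a : Fin k → ℤ) : Prop :=
  ∀ t : ℤ, 1 ≤ ∑ j, ((X (t + a j) : Fin 2) : ℕ)

/-- the pattern `X` has density `d` -/
def HasDensity (X : ℤ → Fin 2) (d : ℝ) : Prop :=
  Tendsto (fun N : ℕ => 1 / (2 * (N : ℝ) + 1) * ∑ i ∈ Icc (-(N : ℤ)) N, ((X i : ℕ) : ℝ))
    atTop (𝓝 d)

/-- the least density needed for the family `F` of ships -/
noncomputable def piF {n k : ℕ} (F : Fin n → Fin k → ℤ) : ℝ :=
  sInf {d : ℝ | ∃ X : ℤ → Fin 2, (∀ i, Hits X (F i)) ∧ HasDensity X d}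

/-- the density needed for the toughest families of `n` ships of size `k` -/
noncomputable def M (n k : ℕ) : ℝ :=
  sSup {p : ℝ | ∃ F : Fin n → Fin k → ℤ, (∀ i, StrictMono (F i)) ∧ p = piF F}

open Pool.Agent.X31 in
lemma exists_half (F : Fin 2 → Fin 3 → ℤ) (hF : ∀ i, StrictMono (F i)) :
    ∃ X : ℤ → Fin 2, (∀ i, Hits X (F i)) ∧ HasDensity X (1 / 2) := by
  classical
  obtain ⟨A, hA, h1, h2⟩ := SH.common (hF 0 (show (0 : Fin 3) < 1 by decide))
    (hF 0 (show (1 : Fin 3) < 2 by decide)) (hF 1 (show (0 : Fin 3) < 1 by decide))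
    (hF 1 (show (1 : Fin 3) < 2 by decide))
  have hX : ∀ i, (((if A i then (1 : Fin 2) else 0 : Fin 2) : ℕ)) = SH.ind A i := by
    intro i
    unfold SH.ind
    split <;> rfl
  refine ⟨fun i => if A i then 1 else 0, ?_, ?_⟩
  · have key : ∀ a : Fin 3 → ℤ, SH.Hit A (a 0) (a 1) (a 2) →
        Hits (fun i => if A i then (1 : Fin 2) else 0) a := by
      intro a ha t
      simp only [hX, Fin.sum_univ_three]
      unfold SH.ind
      rcases ha t with h | h | h
      · simp [h]; omega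
      · simp [h]; omega
      · simp [h]
    intro i
    fin_cases i
    · exact key _ h1
    · exact key _ h2
  · obtain ⟨K, hK⟩ := SH.good_sum hA
    unfold HasDensity
    simp only [hX]
    rw [Metric.tendsto_atTop]
    intro ε hε
    obtain ⟨n0, hn0⟩ := exists_nat_gt (K / ε)
    refine ⟨n0, fun N hN => ?_⟩
    have hpos : (0 : ℝ) < 2 * N + 1 := by positivity
    have h3 := hK N
    have h4 : K < ε * (2 * N + 1) := by
      have h5 : K < n0 * ε := (div_lt_iff₀ hε).1 hn0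
      have h6 : (n0 : ℝ) ≤ N := by exact_mod_cast hN
      nlinarith
    rw [Real.dist_eq]
    have h7 : 1 / (2 * (N : ℝ) + 1) * ∑ i ∈ Icc (-(N : ℤ)) N, (SH.ind A i : ℝ) - 1 / 2 =
        (∑ i ∈ Icc (-(N : ℤ)) N, (SH.ind A i : ℝ) - (2 * N + 1) / 2) / (2 * N + 1) := by
      field_simp
    rw [h7, abs_div, abs_of_pos hpos, div_lt_iff₀ hpos]
    linarith

lemma density_nonneg {X : ℤ → Fin 2} {d : ℝ} (h : HasDensity X d) : 0 ≤ d :=
  ge_of_tendsto' h fun N => by positivity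

lemma bdd {n k : ℕ} (F : Fin n → Fin k → ℤ) :
    BddBelow {d : ℝ | ∃ X : ℤ → Fin 2, (∀ i, Hits X (F i)) ∧ HasDensity X d} :=
  ⟨0, fun _ ⟨_, _, h⟩ => density_nonneg h⟩

/-- the ships `[0, 1, 3]` and `[0, 3, 4]` -/
def F0 : Fin 2 → Fin 3 → ℤ := ![![0, 1, 3], ![0, 3, 4]]

lemma F0_mono : ∀ i, StrictMono (F0 i) := by
  intro i
  fin_cases i
  · intro a b hab
    fin_cases a <;> fin_cases b <;> first | (exact absurd hab (by decide)) | (simp [F0])
  · intro a b hab
    fin_cases a <;> fin_cases b <;> first | (exact absurd hab (by decide)) | (simp [F0])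

open Pool.Agent.X31 in
lemma F0_lower {X : ℤ → Fin 2} {d : ℝ} (h : ∀ i, Hits X (F0 i)) (hd : HasDensity X d) :
    1 / 2 ≤ d := by
  have h1 : ∀ t : ℤ, 1 ≤ ((X t : ℕ) + X (t + 1) + X (t + 3)) := by
    intro t
    have := h 0 t
    simp only [Fin.sum_univ_three] at this
    simpa [F0] using this
  have h2 : ∀ t : ℤ, 1 ≤ ((X t : ℕ) + X (t + 3) + X (t + 4)) := by
    intro t
    have := h 1 t
    simp only [Fin.sum_univ_three] at this
    simpa [F0] using this
  have h3 : Tendsto (fun N : ℕ => 1 / 2 - 3 / 2 * (1 / (2 * (N : ℝ) + 1))) atTop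
      (𝓝 (1 / 2 - 3 / 2 * 0)) := by
    apply Tendsto.const_sub
    apply Tendsto.const_mul
    have h4 : Tendsto (fun N : ℕ => 1 / ((N : ℝ) + 1)) atTop (𝓝 0) :=
      tendsto_one_div_add_atTop_nhds_zero_nat
    refine squeeze_zero (fun N => by positivity) (fun N => ?_) h4
    apply one_div_le_one_div_of_le (by positivity)
    have : (0 : ℝ) ≤ N := Nat.cast_nonneg N
    linarith
  rw [mul_zero, sub_zero] at h3
  refine le_of_tendsto_of_tendsto' h3 hd fun N => ?_
  have h5 := SH.lower h1 h2 N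
  have hpos : (0 : ℝ) < 2 * N + 1 := by positivity
  have h6 : 1 / (2 * (N : ℝ) + 1) * ((2 * (N : ℝ) + 1) / 2 - 3 / 2) ≤
      1 / (2 * (N : ℝ) + 1) * ∑ i ∈ Icc (-(N : ℤ)) N, ((X i : ℕ) : ℝ) :=
    mul_le_mul_of_nonneg_left h5 (by positivity)
  refine le_trans (le_of_eq ?_) h6
  field_simp

lemma piF_F0 : piF F0 = 1 / 2 := by
  apply le_antisymm
  · exact csInf_le (bdd F0) (exists_half F0 F0_mono)
  · exact le_csInf ⟨_, exists_half F0 F0_mono⟩ fun d ⟨X, h1, h2⟩ => F0_lower h1 h2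

/-- The toughest density for two 3-ships is `1/2`; any two 3-ships are hit by one pattern of
density exactly `1/2`; and `[0, 1, 3]`, `[0, 3, 4]` need density `1/2`. -/
theorem result :
    M 2 3 = 1 / 2 ∧
    (∀ F : Fin 2 → Fin 3 → ℤ, (∀ i, StrictMono (F i)) →
      ∃ X : ℤ → Fin 2, (∀ i, Hits X (F i)) ∧ HasDensity X (1 / 2)) ∧
    piF (![![0, 1, 3], ![0, 3, 4]] : Fin 2 → Fin 3 → ℤ) = 1 / 2 := by
  refine ⟨?_, exists_half, piF_F0⟩
  apply IsGreatest.csSup_eq
  refine ⟨⟨F0, F0_mono, piF_F0.symm⟩, ?_⟩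
  rintro p ⟨F, hF, rfl⟩
  exact csInf_le (bdd F) (exists_half F hF)

end Pool.Agent.Results.MP_e24151_co.ToughestDensityHalf
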